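import Mathlib

namespace Pool.Agent.Results.MP_14d42b_co.Counter

open Filter Topology Finset

/-- The base matrix (complement of the Clebsch graph, with loops). -/
def MN (x y : ℕ) : Bool := Nat.testBit 32489 (Nat.xor x y)

def M (x y : Fin 16) : Bool := MN x.val y.val

theorem M_symm (x y : Fin 16) : M x y = M y x := by
  unfold M MN
  congr 1
  exact Nat.xor_comm _ _

/-- Tensor powers of the base matrix, loops removed. -/
def G (m : ℕ) : SimpleGraph (Fin m → Fin 16) where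
  Adj x y := x ≠ y ∧ ∀ i, M (x i) (y i) = true
  symm := ⟨fun x y h => ⟨h.1.symm, fun i => by rw [M_symm]; exact h.2 i⟩⟩
  loopless := ⟨fun x h => h.1 rfl⟩

abbrev B3 := Fin 16 × Fin 16 × Fin 16

def Tri (q : B3) : Prop := M q.1 q.2.1 = true ∧ M q.1 q.2.2 = true ∧ M q.2.1 q.2.2 = true

instance (q : B3) : Decidable (Tri q) := by unfold Tri; infer_instance

def P (a : B3) (x : Fin 16) : Prop := M a.1 x = true ∧ M a.2.1 x = true ∧ M a.2.2 x = true

instance (a : B3) (x : Fin 16) : Decidable (P a x) := by unfold P; infer_instance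

def Bip (q : B3 × B3) : Prop := P q.1 q.2.1 ∧ P q.1 q.2.2.1 ∧ P q.1 q.2.2.2

def L : List ℕ := [0, 1, 2, 3, 4, 5, 6, 7, 8, 9, 10, 11, 12, 13, 14, 15]

theorem sumL (f : ℕ → ℕ) : ∑ i : Fin 16, f i.val = (L.map f).sum := by
  rw [Fin.sum_univ_eq_sum_range]
  simp [Finset.sum_range_succ, L, add_assoc]

def ind (b : Bool) : ℕ := cond b 1 0

def cd (a b c : ℕ) : ℕ := (L.map fun x => ind (MN a x && (MN b x && MN c x))).sum

def cube (n : ℕ) : ℕ := n * (n * n)

theorem sum_cd : (L.map fun a => (L.map fun b =>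
    (L.map fun c => cube (cd a b c)).sum).sum).sum = 732176 := by
  decide +kernel

theorem sum_tri : (L.map fun a => (L.map fun b =>
    (L.map fun c => ind (MN a b && (MN a c && MN b c))).sum).sum).sum = 1456 := by
  decide +kernel

theorem ind_eq (b : Bool) (p : Prop) [Decidable p] (h : p ↔ b = true) :
    (if p then 1 else 0) = ind b := by
  cases b <;> simp [ind, h]

theorem cd_eq (a : B3) : Fintype.card {x // P a x} = cd a.1 a.2.1 a.2.2 := by
  rw [Fintype.card_subtype, cd, Finset.card_filter, ← sumL]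
  exact Finset.sum_congr rfl fun x _ => ind_eq _ _ (by simp [P, M])

theorem card_tri : Nat.card {q : B3 // Tri q} = 1456 := by
  rw [Nat.card_eq_fintype_card, Fintype.card_subtype, Finset.card_filter, ← sum_tri]
  simp only [Fintype.sum_prod_type, ← sumL]
  refine Finset.sum_congr rfl fun a _ => Finset.sum_congr rfl fun b _ =>
    Finset.sum_congr rfl fun c _ => ind_eq _ _ (by simp [Tri, M])

def bipEquiv : {q : B3 × B3 // Bip q} ≃ Σ a : B3, {x // P a x} × {x // P a x} × {x // P a x} where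
  toFun q := ⟨q.1.1, ⟨q.1.2.1, q.2.1⟩, ⟨q.1.2.2.1, q.2.2.1⟩, ⟨q.1.2.2.2, q.2.2.2⟩⟩
  invFun s := ⟨(s.1, s.2.1.1, s.2.2.1.1, s.2.2.2.1), s.2.1.2, s.2.2.1.2, s.2.2.2.2⟩
  left_inv _ := rfl
  right_inv _ := rfl

theorem card_bip : Nat.card {q : B3 × B3 // Bip q} = 732176 := by
  rw [Nat.card_congr bipEquiv, Nat.card_eq_fintype_card, Fintype.card_sigma]
  rw [← sum_cd]
  simp only [Fintype.card_prod, cd_eq]
  simp only [Fintype.sum_prod_type, ← sumL]
  rfl

abbrev V3 (m : ℕ) := (Fin m → Fin 16) × (Fin m → Fin 16) × (Fin m → Fin 16)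

def at3 {m : ℕ} (p : V3 m) (i : Fin m) : B3 := (p.1 i, p.2.1 i, p.2.2 i)

def triPow (m : ℕ) : {p : V3 m // ∀ i, Tri (at3 p i)} ≃ (Fin m → {q : B3 // Tri q}) where
  toFun p i := ⟨at3 p.1 i, p.2 i⟩
  invFun f := ⟨(fun i => (f i).1.1, fun i => (f i).1.2.1, fun i => (f i).1.2.2), fun i => (f i).2⟩
  left_inv _ := rfl
  right_inv _ := rfl

def bipPow (m : ℕ) : {p : V3 m × V3 m // ∀ i, Bip (at3 p.1 i, at3 p.2 i)} ≃
    (Fin m → {q : B3 × B3 // Bip q}) where
  toFun p i := ⟨(at3 p.1.1 i, at3 p.1.2 i), p.2 i⟩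
  invFun f := ⟨((fun i => (f i).1.1.1, fun i => (f i).1.1.2.1, fun i => (f i).1.1.2.2),
    (fun i => (f i).1.2.1, fun i => (f i).1.2.2.1, fun i => (f i).1.2.2.2)), fun i => (f i).2⟩
  left_inv _ := rfl
  right_inv _ := rfl

theorem card_triPow (m : ℕ) : Nat.card {p : V3 m // ∀ i, Tri (at3 p i)} = 1456 ^ m := by
  rw [Nat.card_congr (triPow m), Nat.card_fun, card_tri]; simp

theorem card_bipPow (m : ℕ) :
    Nat.card {p : V3 m × V3 m // ∀ i, Bip (at3 p.1 i, at3 p.2 i)} = 732176 ^ m := by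
  rw [Nat.card_congr (bipPow m), Nat.card_fun, card_bip]; simp

theorem k33_le (m : ℕ) :
    (G m).copyCount (completeBipartiteGraph (Fin 3) (Fin 3)) ≤ 732176 ^ m := by
  classical
  refine SimpleGraph.copyCount_le_labelledCopyCount.trans ?_
  have hl : (G m).labelledCopyCount (completeBipartiteGraph (Fin 3) (Fin 3)) =
      Nat.card ((completeBipartiteGraph (Fin 3) (Fin 3)).Copy (G m)) := by
    unfold SimpleGraph.labelledCopyCount
    exact (@Nat.card_eq_fintype_card _ (_)).symm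
  rw [← card_bipPow, hl]
  have adj : ∀ (f : (completeBipartiteGraph (Fin 3) (Fin 3)).Copy (G m)) (a b : Fin 3) (i : Fin m),
      M (f (Sum.inl a) i) (f (Sum.inr b) i) = true := by
    intro f a b i
    have h : (G m).Adj (f (Sum.inl a)) (f (Sum.inr b)) := f.toHom.map_adj (by simp)
    exact h.2 i
  refine Nat.card_le_card_of_injective (fun f => ⟨((f (.inl 0), f (.inl 1), f (.inl 2)),
    (f (.inr 0), f (.inr 1), f (.inr 2))), fun i => ?_⟩) ?_
  · exact ⟨⟨adj f _ _ i, adj f _ _ i, adj f _ _ i⟩, ⟨adj f _ _ i, adj f _ _ i, adj f _ _ i⟩,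
      ⟨adj f _ _ i, adj f _ _ i, adj f _ _ i⟩⟩
  · intro f g h
    simp only [Subtype.mk.injEq, Prod.mk.injEq] at h
    obtain ⟨⟨h1, h2, h3⟩, h4, h5, h6⟩ := h
    ext a : 1
    rcases a with a | a <;> fin_cases a <;> assumption

theorem labelled_le {V : Type} [Fintype V] (H : SimpleGraph V) :
    Nat.card ((⊤ : SimpleGraph (Fin 3)).Copy H) ≤ 27 * H.copyCount (⊤ : SimpleGraph (Fin 3)) := by
  classical
  rw [SimpleGraph.copyCount_eq_card_image_copyToSubgraph, Nat.card_eq_fintype_card,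
    ← Finset.card_univ]
  refine Finset.card_le_mul_card_image _ 27 ?_
  intro S hS
  obtain ⟨f₀, -, rfl⟩ := Finset.mem_image.1 hS
  have key : ∀ f : (⊤ : SimpleGraph (Fin 3)).Copy H, f.toSubgraph = f₀.toSubgraph →
      ∀ i, ∃ j, f₀ j = f i := by
    intro f hf i
    have h1 : f i ∈ f.toSubgraph.verts := ⟨i, by simp, rfl⟩
    rw [hf] at h1
    obtain ⟨j, -, hj⟩ := h1
    exact ⟨j, hj⟩
  have h27 : (Finset.univ : Finset (Fin 3 → Fin 3)).card = 27 := by simp
  rw [← h27]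
  refine Finset.card_le_card_of_injOn
    (fun f i => if h : ∃ j, f₀ j = f i then h.choose else 0) (fun _ _ => by simp) ?_
  intro f hf g hg hfg
  simp only [Finset.coe_filter, Finset.mem_univ, true_and, Set.mem_setOf_eq] at hf hg
  ext i : 1
  have h := congrFun hfg i
  simp only [dif_pos (key f hf i), dif_pos (key g hg i)] at h
  rw [← (key f hf i).choose_spec, ← (key g hg i).choose_spec, h]

theorem tri_ge (m : ℕ) :
    1456 ^ m ≤ 27 * (G m).copyCount (⊤ : SimpleGraph (Fin 3)) + 3 * (16 ^ m) ^ 2 := by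
  classical
  have hl := labelled_le (G m)
  rw [← card_triPow, Nat.card_eq_fintype_card, Fintype.card_subtype]
  have hsub : (Finset.univ.filter fun p : V3 m => ∀ i, Tri (at3 p i)) ⊆
      ((Finset.univ : Finset ((⊤ : SimpleGraph (Fin 3)).Copy (G m))).image
        fun f => (f 0, f 1, f 2)) ∪
      ((Finset.univ : Finset ((Fin m → Fin 16) × (Fin m → Fin 16))).image
        fun q => (q.1, q.1, q.2)) ∪
      ((Finset.univ : Finset ((Fin m → Fin 16) × (Fin m → Fin 16))).image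
        fun q => (q.1, q.2, q.1)) ∪
      ((Finset.univ : Finset ((Fin m → Fin 16) × (Fin m → Fin 16))).image
        fun q => (q.1, q.2, q.2)) := by
    rintro ⟨x, y, z⟩ hp
    simp only [Finset.mem_filter, Finset.mem_univ, true_and] at hp
    simp only [Finset.mem_union, Finset.mem_image, Finset.mem_univ, true_and]
    by_cases hxy : x = y
    · exact Or.inl (Or.inl (Or.inr ⟨(x, z), by simp [hxy]⟩))
    by_cases hxz : x = z
    · exact Or.inl (Or.inr ⟨(x, y), by simp [hxz]⟩)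
    by_cases hyz : y = z
    · exact Or.inr ⟨(x, y), by simp [hyz]⟩
    have a1 : (G m).Adj x y := ⟨hxy, fun i => (hp i).1⟩
    have a2 : (G m).Adj x z := ⟨hxz, fun i => (hp i).2.1⟩
    have a3 : (G m).Adj y z := ⟨hyz, fun i => (hp i).2.2⟩
    have hadj : ∀ a b : Fin 3, a ≠ b → (G m).Adj (![x, y, z] a) (![x, y, z] b) := by
      intro a b hab
      fin_cases a <;> fin_cases b <;>
        first | exact absurd rfl hab | exact a1 | exact a2 | exact a3 | exact a1.symm
              | exact a2.symm | exact a3.symm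
    refine Or.inl (Or.inl (Or.inl ⟨⟨⟨![x, y, z], fun {a b} h => hadj a b h⟩, ?_⟩, rfl⟩))
    intro a b hab
    by_contra hne
    exact (hadj a b hne).ne hab
  have hc : Fintype.card ((Fin m → Fin 16) × (Fin m → Fin 16)) = (16 ^ m) ^ 2 := by
    simp [sq]
  refine (Finset.card_le_card hsub).trans ?_
  refine (Finset.card_union_le _ _).trans ?_
  refine (Nat.add_le_add_right (Finset.card_union_le _ _) _).trans ?_
  refine (Nat.add_le_add_right (Nat.add_le_add_right (Finset.card_union_le _ _) _) _).trans ?_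
  have i1 := Finset.card_image_le (s := (Finset.univ : Finset
    ((⊤ : SimpleGraph (Fin 3)).Copy (G m)))) (f := fun f => ((f 0, f 1, f 2) : V3 m))
  have i2 := Finset.card_image_le (s := (Finset.univ : Finset
    ((Fin m → Fin 16) × (Fin m → Fin 16)))) (f := fun q => ((q.1, q.1, q.2) : V3 m))
  have i3 := Finset.card_image_le (s := (Finset.univ : Finset
    ((Fin m → Fin 16) × (Fin m → Fin 16)))) (f := fun q => ((q.1, q.2, q.1) : V3 m))
  have i4 := Finset.card_image_le (s := (Finset.univ : Finset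
    ((Fin m → Fin 16) × (Fin m → Fin 16)))) (f := fun q => ((q.1, q.2, q.2) : V3 m))
  rw [Finset.card_univ, hc] at i2 i3 i4
  rw [Finset.card_univ, ← Nat.card_eq_fintype_card] at i1
  omega

theorem result : ¬ ∀ t : ℕ, 3 ≤ t → ∃ (k₀ : ℝ) (ε : ℕ → ℝ), Tendsto ε atTop (𝓝 0) ∧
    ∀ (V : Type) [Fintype V] (H : SimpleGraph V) (k : ℝ), 0 < k →
      (H.copyCount (⊤ : SimpleGraph (Fin 3)) : ℝ) = k * (Fintype.card V : ℝ) ^ 2 → k₀ ≤ k →
      k ^ t * (Fintype.card V : ℝ) ^ ((3 : ℝ) - ε (Fintype.card V)) ≤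
        (H.copyCount (completeBipartiteGraph (Fin 3) (Fin t)) : ℝ) := by
  intro h
  obtain ⟨k₀, ε, hε, h⟩ := h 3 le_rfl
  set δ : ℝ := Real.logb 16 (51 / 50) with hδ
  have hδpos : 0 < δ := Real.logb_pos (by norm_num) (by norm_num)
  have h16δ : (16 : ℝ) ^ δ = 51 / 50 := Real.rpow_logb (by norm_num) (by norm_num) (by norm_num)
  have t16 : Tendsto (fun m : ℕ => 16 ^ m) atTop atTop :=
    tendsto_pow_atTop_atTop_of_one_lt (by norm_num : (1 : ℕ) < 16)
  have e1 : ∀ᶠ m : ℕ in atTop, ε (16 ^ m) < δ := (hε.comp t16).eventually (gt_mem_nhds hδpos)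
  have ta : Tendsto (fun m : ℕ => (91 / 16 : ℝ) ^ m) atTop atTop :=
    tendsto_pow_atTop_atTop_of_one_lt (by norm_num)
  have tb : Tendsto (fun m : ℕ => ((91 / 16 : ℝ) ^ 3 * 4096 / (51 / 50 * 732176)) ^ m)
      atTop atTop := tendsto_pow_atTop_atTop_of_one_lt (by norm_num)
  obtain ⟨m, m1, m2, m3, m4⟩ := (e1.and ((ta.eventually_ge_atTop 6).and
    ((ta.eventually_ge_atTop (54 * k₀)).and (tb.eventually_gt_atTop (54 ^ 3))))).exists
  have hcard : Fintype.card (Fin m → Fin 16) = 16 ^ m := by simp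
  have hn : (0 : ℝ) < 16 ^ m := by positivity
  have hn1 : (1 : ℝ) ≤ 16 ^ m := one_le_pow₀ (by norm_num)
  set c : ℝ := ((G m).copyCount (⊤ : SimpleGraph (Fin 3)) : ℝ) with hc
  have htri : (1456 : ℝ) ^ m ≤ 27 * c + 3 * (16 ^ m) ^ 2 := by
    rw [hc]; exact_mod_cast tri_ge m
  have h1456 : (1456 : ℝ) ^ m = (91 / 16) ^ m * (16 ^ m) ^ 2 := by
    rw [← pow_mul, mul_comm m 2, pow_mul, ← mul_pow]; norm_num
  set a : ℝ := (91 / 16) ^ m with ha
  have hk : a / 54 ≤ c / (16 ^ m) ^ 2 := by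
    rw [le_div_iff₀ (by positivity)]
    rw [h1456] at htri
    have : (0 : ℝ) < (16 ^ m) ^ 2 := by positivity
    nlinarith
  have hapos : 0 < a := by positivity
  have key := h (Fin m → Fin 16) (G m) (c / (16 ^ m) ^ 2) (lt_of_lt_of_le (by positivity) hk)
    (by rw [hcard, ← hc]; push_cast; field_simp) (by linarith)
  rw [hcard] at key
  push_cast at key
  have hK : ((G m).copyCount (completeBipartiteGraph (Fin 3) (Fin 3)) : ℝ) ≤ 732176 ^ m := by
    exact_mod_cast k33_le m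
  have hp : ((16 : ℝ) ^ m) ^ ((3 : ℝ) - δ) ≤ ((16 : ℝ) ^ m) ^ ((3 : ℝ) - ε (16 ^ m)) :=
    Real.rpow_le_rpow_of_exponent_le hn1 (by linarith)
  have hq : ((16 : ℝ) ^ m) ^ ((3 : ℝ) - δ) = 4096 ^ m / (51 / 50) ^ m := by
    rw [Real.rpow_sub hn, ← h16δ, ← Real.rpow_natCast_mul (by norm_num) m δ, mul_comm,
      Real.rpow_mul_natCast (by norm_num)]
    congr 1
    rw [show (3 : ℝ) = ((3 : ℕ) : ℝ) by norm_num, Real.rpow_natCast, ← pow_mul, mul_comm, pow_mul]
    norm_num
  have hk3 : (a / 54) ^ 3 ≤ (c / (16 ^ m) ^ 2) ^ 3 := pow_le_pow_left₀ (by positivity) hk 3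
  have fin : (a / 54) ^ 3 * (4096 ^ m / (51 / 50) ^ m) ≤ (732176 : ℝ) ^ m := by
    rw [← hq]
    refine le_trans ?_ (key.trans hK)
    exact mul_le_mul hk3 hp (by positivity) (le_trans (by positivity) hk3)
  have hb : ((91 / 16 : ℝ) ^ 3 * 4096 / (51 / 50 * 732176)) ^ m =
      a ^ 3 * 4096 ^ m / ((51 / 50) ^ m * 732176 ^ m) := by
    rw [div_pow, mul_pow, mul_pow, ha, ← pow_mul, ← pow_mul, mul_comm 3 m]
  rw [hb, lt_div_iff₀ (by positivity)] at m4
  rw [div_pow, div_mul_div_comm, div_le_iff₀ (by positivity)] at fin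
  nlinarith

end Pool.Agent.Results.MP_14d42b_co.Counter
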